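import Pool.Agent.W488.KS.Stm2

/-!
# The even Clifford algebra is simple in even dimensions when the discriminant is not a square
-/

set_option autoImplicit false
open Finset Matrix Module

namespace Pool.Agent.W567.KS

section abs
variable {A : Type*} [Ring A] {κ : Type*} (u : κ → A)

/-- monomials -/
def mm (l : List κ) : A := (l.map u).prod

@[simp] theorem mm_nil : mm u [] = 1 := rfl
@[simp] theorem mm_cons (i : κ) (l : List κ) : mm u (i :: l) = u i * mm u l := by
  simp [mm]
theorem mm_append (l l' : List κ) : mm u (l ++ l') = mm u l * mm u l' := by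
  simp [mm]

variable [Algebra ℚ A] [DecidableEq κ]
variable (q : κ → ℚ) (h1 : ∀ i j, i ≠ j → u i * u j = -(u j * u i))
  (h2 : ∀ i, u i * u i = algebraMap ℚ A (q i)) (h3 : ∀ i, q i ≠ 0)

include h1 in
theorem swp (i : κ) (l : List κ) :
    u i * mm u l = ((-1 : ℚ) ^ (l.length + l.count i)) • (mm u l * u i) := by
  induction l with
  | nil => simp
  | cons j t ih =>
    by_cases h : j = i
    · subst h
      have e : (-1 : ℚ) ^ ((j :: t).length + (j :: t).count j) = (-1) ^ (t.length + t.count j) := by
        rw [List.length_cons, List.count_cons_self]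
        rw [show t.length + 1 + (t.count j + 1) = (t.length + t.count j) + 2 by ring, pow_add]
        norm_num
      rw [e, mm_cons]
      conv_lhs => rw [ih, mul_smul_comm, ← mul_assoc]
    · have e : (-1 : ℚ) ^ ((j :: t).length + (j :: t).count i) = -(-1) ^ (t.length + t.count i) := by
        rw [List.length_cons, List.count_cons_of_ne h]
        rw [show t.length + 1 + t.count i = (t.length + t.count i) + 1 by ring, pow_succ]
        ring
      rw [e, mm_cons, ← mul_assoc, h1 i j (Ne.symm h), neg_mul, mul_assoc, ih, mul_smul_comm,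
        neg_smul, ← mul_assoc]

include h1 h2 h3 in
theorem scal : ∀ (N : ℕ) (l : List κ), l.length ≤ N → (∀ i, Even (l.count i)) →
    ∃ c : ℚ, c ≠ 0 ∧ mm u l = algebraMap ℚ A c := by
  intro N
  induction N with
  | zero =>
    intro l hl _
    have : l = [] := List.length_eq_zero_iff.mp (by omega)
    subst this
    exact ⟨1, one_ne_zero, by simp⟩
  | succ N ih =>
    intro l hl he
    cases l with
    | nil => exact ⟨1, one_ne_zero, by simp⟩
    | cons i t =>
      have hi := he i
      rw [List.count_cons_self] at hi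
      have hpos : 0 < t.count i := by
        rcases Nat.eq_zero_or_pos (t.count i) with h | h
        · rw [h] at hi; exact absurd hi (by decide)
        · exact h
      obtain ⟨t1, t2, rfl⟩ := List.append_of_mem (List.count_pos_iff.mp hpos)
      obtain ⟨c, hc, hm⟩ := ih (t1 ++ t2) (by simp at hl ⊢; omega) (fun j => by
        have hj := he j
        simp only [List.count_cons, List.count_append] at hj ⊢
        rw [Nat.even_iff] at hj ⊢
        by_cases h : i = j
        · subst h; simp at hj; omega
        · simp [h] at hj; omega)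
      refine ⟨(-1) ^ (t1.length + t1.count i) * q i * c, ?_, ?_⟩
      · exact mul_ne_zero (mul_ne_zero (pow_ne_zero _ (by norm_num)) (h3 i)) hc
      · rw [mm_cons, mm_append, mm_cons, ← mul_assoc, swp u h1, smul_mul_assoc, mul_assoc,
          ← mul_assoc (u i), h2, Algebra.left_comm]
        rw [mm_append] at hm
        rw [hm, ← map_mul, Algebra.smul_def, ← map_mul, mul_assoc]

include h1 h2 h3 in
theorem prop_of (l x : List κ) (h : ∀ i, Even (l.count i + x.count i)) :
    ∃ c : ℚ, mm u l = c • mm u x := by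
  obtain ⟨c, hc, hm⟩ := scal u q h1 h2 h3 _ (l ++ x.reverse) le_rfl (fun i => by
    rw [List.count_append, List.count_reverse]; exact h i)
  obtain ⟨c', hc', hm'⟩ := scal u q h1 h2 h3 _ (x.reverse ++ x) le_rfl (fun i => by
    rw [List.count_append, List.count_reverse]; exact ⟨_, rfl⟩)
  rw [mm_append] at hm hm'
  refine ⟨c / c', ?_⟩
  have e : mm u l * (mm u x.reverse * mm u x) = c • mm u x := by
    rw [← mul_assoc, hm, Algebra.smul_def]
  rw [hm', ← Algebra.commutes, ← Algebra.smul_def] at e
  rw [div_eq_inv_mul, mul_smul, ← e, smul_smul, inv_mul_cancel₀ hc', one_smul]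

/-- the sign -/
def sg (i j : κ) (l : List κ) : ℚ := (-1) ^ (l.count i + l.count j)

theorem sg_cases (i j : κ) (l : List κ) : sg i j l = 1 ∨ sg i j l = -1 := by
  unfold sg
  exact neg_one_pow_eq_or ℚ _

include h1 in
theorem cnj (i j : κ) (l : List κ) :
    u i * u j * mm u l = sg i j l • (mm u l * (u i * u j)) := by
  rw [mul_assoc, swp u h1 j, mul_smul_comm, ← mul_assoc, swp u h1 i, smul_mul_assoc, smul_smul]
  congr 1
  · unfold sg
    rw [← pow_add, show l.length + l.count j + (l.length + l.count i) =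
      2 * l.length + (l.count i + l.count j) by ring, pow_add, pow_mul]
    norm_num
  · rw [mul_assoc]

include h1 h2 h3 in
theorem cnj2 (i j : κ) (l : List κ) :
    (q i * q j)⁻¹ • (u i * u j * mm u l * (u j * u i)) = sg i j l • mm u l := by
  rw [cnj u h1, smul_mul_assoc, mul_assoc, mul_assoc (u i), ← mul_assoc (u j), h2 j,
    Algebra.left_comm, h2 i, ← map_mul, ← Algebra.commutes, ← Algebra.smul_def, smul_smul,
    smul_smul]
  congr 1
  have := h3 i
  have := h3 j
  field_simp

include h1 h2 h3 in
theorem sep (N : Submodule ℚ A) (i0 : κ)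
    (hN : ∀ j, ∀ z ∈ N, u i0 * u j * z * (u j * u i0) ∈ N) (S : Set (List κ)) (J : Finset κ)
    (z : A) (hz : z ∈ N) (hz0 : z ≠ 0) (hS : z ∈ Submodule.span ℚ (mm u '' S)) :
    ∃ (ε : κ → ℚ) (z' : A), z' ∈ N ∧ z' ≠ 0 ∧
      z' ∈ Submodule.span ℚ (mm u '' {l | l ∈ S ∧ ∀ j ∈ J, sg i0 j l = ε j}) := by
  classical
  induction J using Finset.induction_on with
  | empty => exact ⟨0, z, hz, hz0, by simpa using hS⟩
  | insert j J hj ih =>
    obtain ⟨ε, w, hw, hw0, hwS⟩ := ih
    set T : A →ₗ[ℚ] A := (q i0 * q j)⁻¹ •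
      ((LinearMap.mulLeft ℚ (u i0 * u j)) ∘ₗ (LinearMap.mulRight ℚ (u j * u i0))) with hT
    have hTm : ∀ l, T (mm u l) = sg i0 j l • mm u l := by
      intro l
      rw [← cnj2 u q h1 h2 h3, hT]
      simp [mul_assoc]
    have hTN : ∀ x ∈ N, T x ∈ N := by
      intro x hx
      have := N.smul_mem (q i0 * q j)⁻¹ (hN j x hx)
      rw [hT]
      simpa [mul_assoc] using this
    have key : ∀ s : ℚ, (s = 1 ∨ s = -1) → w + s • T w ∈
        Submodule.span ℚ (mm u '' {l | l ∈ S ∧ ∀ i ∈ insert j J, sg i0 i l = Function.update ε j s i}) := by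
      intro s hs
      have : ∀ x ∈ Submodule.span ℚ (mm u '' {l | l ∈ S ∧ ∀ j ∈ J, sg i0 j l = ε j}),
          x + s • T x ∈ Submodule.span ℚ (mm u ''
            {l | l ∈ S ∧ ∀ i ∈ insert j J, sg i0 i l = Function.update ε j s i}) := by
        intro x hx
        induction hx using Submodule.span_induction with
        | mem x hx =>
          obtain ⟨l, ⟨hl, hl'⟩, rfl⟩ := hx
          rw [hTm, smul_smul]
          by_cases hsg : sg i0 j l = s
          · have e : mm u l + (s * sg i0 j l) • mm u l = (1 + s * sg i0 j l) • mm u l := by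
              rw [add_smul, one_smul]
            rw [e]
            apply Submodule.smul_mem
            apply Submodule.subset_span
            refine ⟨l, ⟨hl, ?_⟩, rfl⟩
            intro i hi
            by_cases hij : i = j
            · subst hij; simp [hsg]
            · rw [Function.update_of_ne hij]
              exact hl' i ((Finset.mem_insert.mp hi).resolve_left hij)
          · have e : s * sg i0 j l = -1 := by
              rcases hs with rfl | rfl <;> rcases sg_cases i0 j l with h | h <;>
                first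
                | exact absurd h hsg
                | (rw [h]; norm_num)
            rw [e, neg_smul, one_smul, add_neg_cancel]
            exact Submodule.zero_mem _
        | zero => simp
        | add x y _ _ hx hy =>
          rw [map_add, smul_add, add_add_add_comm]
          exact Submodule.add_mem _ hx hy
        | smul c x _ hx =>
          rw [map_smul, smul_comm, ← smul_add]
          exact Submodule.smul_mem _ _ hx
      exact this w hwS
    by_cases h : w + (1 : ℚ) • T w = 0
    · refine ⟨Function.update ε j (-1), w + (-1 : ℚ) • T w, ?_, ?_, key (-1) (Or.inr rfl)⟩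
      · exact N.add_mem hw (N.smul_mem _ (hTN w hw))
      · intro h'
        apply hw0
        have e : (2 : ℚ) • w = 0 := by
          rw [one_smul] at h
          rw [neg_smul, one_smul] at h'
          have : w + T w + (w + -T w) = (2 : ℚ) • w := by rw [two_smul]; abel
          rw [← this, h, h', add_zero]
        exact (smul_eq_zero.mp e).resolve_left (by norm_num)
    · refine ⟨Function.update ε j 1, w + (1 : ℚ) • T w, ?_, h, key 1 (Or.inl rfl)⟩
      exact N.add_mem hw (N.smul_mem _ (hTN w hw))

include h1 h2 h3 in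
/-- the main lemma: a nonzero submodule stable under conjugation contains
`a m_l + b η m_l` -/
theorem two [Fintype κ] (N : Submodule ℚ A) (i0 : κ)
    (hN : ∀ j, ∀ z ∈ N, u i0 * u j * z * (u j * u i0) ∈ N) (S : Set (List κ))
    (z : A) (hz : z ∈ N) (hz0 : z ≠ 0) (hS : z ∈ Submodule.span ℚ (mm u '' S))
    (fr : List κ) (hfr : ∀ i, fr.count i = 1) :
    ∃ (l : List κ) (a b : ℚ), l ∈ S ∧ (a • mm u l + b • (mm u fr * mm u l)) ∈ N ∧
      (a • mm u l + b • (mm u fr * mm u l)) ≠ 0 := by
  obtain ⟨ε, w, hw, hw0, hwS⟩ := sep u q h1 h2 h3 N i0 hN S Finset.univ z hz hz0 hS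
  have hne : ∃ l, l ∈ S ∧ ∀ j, sg i0 j l = ε j := by
    by_contra hcon
    push Not at hcon
    apply hw0
    have : {l | l ∈ S ∧ ∀ j ∈ (Finset.univ : Finset κ), sg i0 j l = ε j} = ∅ := by
      ext l
      simp only [Set.mem_ofPred_eq, Set.mem_empty_iff_false, iff_false, not_and]
      intro hl h
      obtain ⟨j, hj⟩ := hcon l hl
      exact hj (h j (Finset.mem_univ j))
    rw [this] at hwS
    simpa using hwS
  obtain ⟨l0, hl0, hs0⟩ := hne
  have hspan : w ∈ Submodule.span ℚ ({mm u l0, mm u fr * mm u l0} : Set A) := by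
    refine (Submodule.span_le.mpr ?_) hwS
    rintro _ ⟨l, ⟨hl, hsl⟩, rfl⟩
    have hpar : ∀ j, Even (l.count i0 + l.count j + (l0.count i0 + l0.count j)) := by
      intro j
      have h := hsl j (Finset.mem_univ j)
      rw [← hs0 j] at h
      unfold sg at h
      by_contra hodd
      rw [Nat.not_even_iff_odd] at hodd
      have h5 : ((-1 : ℚ)) ^ (l.count i0 + l.count j + (l0.count i0 + l0.count j)) = -1 := hodd.neg_one_pow
      rw [pow_add, h, ← pow_add, ← two_mul, pow_mul] at h5
      norm_num at h5
    by_cases h0 : Even (l.count i0 + l0.count i0)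
    · obtain ⟨c, hc⟩ := prop_of u q h1 h2 h3 l l0 (fun j => by
        have := hpar j
        rw [Nat.even_iff] at *
        omega)
      rw [hc]
      exact Submodule.smul_mem _ _ (Submodule.subset_span (by simp))
    · obtain ⟨c, hc⟩ := prop_of u q h1 h2 h3 l (fr ++ l0) (fun j => by
        have := hpar j
        rw [List.count_append, hfr]
        rw [Nat.even_iff] at *
        omega)
      rw [hc, mm_append]
      exact Submodule.smul_mem _ _ (Submodule.subset_span (by simp))
  rw [Submodule.mem_span_pair] at hspan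
  obtain ⟨a, b, hab⟩ := hspan
  exact ⟨l0, a, b, hl0, by rw [hab]; exact hw, by rw [hab]; exact hw0⟩

/-- signs of the squares of monomials -/
def sn : ℕ → ℚ
  | 0 => 1
  | k + 1 => (-1) ^ k * sn k

theorem sn_even (k : ℕ) : sn (2 * k) = (-1) ^ k := by
  induction k with
  | zero => simp [sn]
  | succ k ih =>
    rw [show 2 * (k + 1) = 2 * k + 1 + 1 by ring]
    simp only [sn]
    rw [ih, pow_succ, pow_succ, pow_mul]
    norm_num

include h1 h2 in
theorem sqr (l : List κ) (hl : l.Nodup) :
    mm u l * mm u l = algebraMap ℚ A (sn l.length * (l.map q).prod) := by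
  induction l with
  | nil => simp [sn]
  | cons i t ih =>
    rw [List.nodup_cons] at hl
    have h := swp u h1 i t
    rw [List.count_eq_zero_of_not_mem hl.1, add_zero] at h
    have ih' := ih hl.2
    have h' : mm u t * u i = ((-1 : ℚ) ^ t.length) • (u i * mm u t) := by
      rw [h, smul_smul, ← pow_add, ← two_mul, pow_mul]
      norm_num
    rw [mm_cons, mul_assoc, ← mul_assoc (mm u t), h', smul_mul_assoc, mul_smul_comm, ← mul_assoc,
      ← mul_assoc, h2, mul_assoc, ih', ← map_mul, Algebra.smul_def, ← map_mul]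
    congr 1
    simp only [List.length_cons, sn, List.map_cons, List.prod_cons]
    ring

end abs

open CliffordAlgebra Pool.Agent.W488.KS

theorem gram {n : ℕ} (Q : Matrix (Fin n) (Fin n) ℚ) (hQ : Qᵀ = Q) :
    ∃ (v : Basis (Fin n) ℚ (Fin n → ℚ)) (d : ℚ), d ≠ 0 ∧
      (∀ i j, i ≠ j → v i ⬝ᵥ Q *ᵥ v j = 0) ∧ ∏ i, (v i ⬝ᵥ Q *ᵥ v i) = d * d * Q.det := by
  have hs : (Matrix.toBilin' Q).IsSymm := by
    rw [LinearMap.BilinForm.isSymm_iff_basis (Pi.basisFun ℚ (Fin n))]
    intro i j
    simp only [Pi.basisFun_apply, Matrix.toBilin'_single]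
    rw [← Matrix.transpose_apply Q, hQ]
  obtain ⟨v0, hv0⟩ := LinearMap.BilinForm.exists_orthogonal_basis (LinearMap.BilinForm.isSymm_iff.mp hs)
  have hn : Module.finrank ℚ (Fin n → ℚ) = n := by simp
  set v := v0.reindex (finCongr hn) with hv
  have ho : ∀ i j, i ≠ j → v i ⬝ᵥ Q *ᵥ v j = 0 := by
    intro i j hij
    have := LinearMap.isOrthoᵢ_def.mp hv0 ((finCongr hn).symm i) ((finCongr hn).symm j)
      (by simpa using hij)
    rw [hv, Basis.reindex_apply, Basis.reindex_apply]
    rw [Matrix.toBilin'_apply'] at this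
    exact this
  set P : Matrix (Fin n) (Fin n) ℚ := (Pi.basisFun ℚ (Fin n)).toMatrix v with hP
  have hPe : ∀ i j, P i j = v j i := by
    intro i j
    rw [hP, Basis.toMatrix_apply, Pi.basisFun_repr]
  let _ := (Pi.basisFun ℚ (Fin n)).invertibleToMatrix v
  have hd : P.det ≠ 0 := (Matrix.isUnit_det_of_invertible P).ne_zero
  have hg : Pᵀ * (Q * P) = Matrix.diagonal (fun i => v i ⬝ᵥ Q *ᵥ v i) := by
    ext i j
    have e : (Pᵀ * (Q * P)) i j = v i ⬝ᵥ Q *ᵥ v j := by
      simp only [Matrix.mul_apply, Matrix.transpose_apply, hPe, dotProduct, Matrix.mulVec]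
    rw [e]
    by_cases hij : i = j
    · subst hij; rw [Matrix.diagonal_apply_eq]
    · rw [Matrix.diagonal_apply_ne _ hij]; exact ho i j hij
  refine ⟨v, P.det, hd, ho, ?_⟩
  have := congrArg Matrix.det hg
  rw [Matrix.det_mul, Matrix.det_mul, Matrix.det_transpose, Matrix.det_diagonal] at this
  rw [← this]; ring

theorem mm_even {n : ℕ} (Q : Matrix (Fin n) (Fin n) ℚ) (v : Fin n → (Fin n → ℚ)) :
    ∀ l : List (Fin n), Even l.length →
      mm (fun i => ι (qf Q) (v i)) l ∈ CliffordAlgebra.even (qf Q)
  | [], _ => by rw [mm_nil]; exact one_mem _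
  | [i], h => by simp at h
  | i :: j :: t, h => by
    rw [mm_cons, mm_cons, ← mul_assoc]
    refine mul_mem ?_ (mm_even Q v t ?_)
    · exact ι_mul_ι_mem_evenOdd_zero (qf Q) (v i) (v j)
    · simp only [List.length_cons] at h
      rw [Nat.even_iff] at h ⊢
      omega

theorem span_even {n : ℕ} (Q : Matrix (Fin n) (Fin n) ℚ) (v : Basis (Fin n) ℚ (Fin n → ℚ))
    (x : CliffordAlgebra (qf Q)) (hx : x ∈ evenOdd (qf Q) 0) :
    x ∈ Submodule.span ℚ (mm (fun i => ι (qf Q) (v i)) '' {l | Even l.length}) := by
  induction x, hx using even_induction with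
  | algebraMap r =>
    rw [Algebra.algebraMap_eq_smul_one]
    exact Submodule.smul_mem _ _ (Submodule.subset_span ⟨[], by simp, rfl⟩)
  | add x y hx hy h1 h2 => exact Submodule.add_mem _ h1 h2
  | ι_mul_ι_mul m₁ m₂ x hx h =>
    have hb : ∀ i j, ∀ y ∈ Submodule.span ℚ (mm (fun i => ι (qf Q) (v i)) '' {l | Even l.length}),
        ι (qf Q) (v i) * ι (qf Q) (v j) * y ∈
          Submodule.span ℚ (mm (fun i => ι (qf Q) (v i)) '' {l | Even l.length}) := by
      intro i j y hy
      induction hy using Submodule.span_induction with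
      | mem y hy =>
        obtain ⟨l, hl, rfl⟩ := hy
        refine Submodule.subset_span ⟨i :: j :: l, ?_, ?_⟩
        · rw [Set.mem_ofPred_eq] at hl ⊢
          simp only [List.length_cons]
          rw [Nat.even_iff] at hl ⊢
          omega
        · rw [mm_cons, mm_cons, ← mul_assoc]
      | zero => simp
      | add y z _ _ hy hz => rw [mul_add]; exact Submodule.add_mem _ hy hz
      | smul c y _ hy => rw [mul_smul_comm]; exact Submodule.smul_mem _ _ hy
    have e : ∀ m : Fin n → ℚ, ι (qf Q) m = ∑ i, (v.repr m i) • ι (qf Q) (v i) := by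
      intro m
      conv_lhs => rw [← v.sum_repr m]
      rw [map_sum]
      simp only [map_smul]
    rw [e m₁, e m₂, Finset.sum_mul_sum, Finset.sum_mul]
    refine Submodule.sum_mem _ fun i _ => ?_
    rw [Finset.sum_mul]
    refine Submodule.sum_mem _ fun j _ => ?_
    rw [smul_mul_smul_comm, smul_mul_assoc]
    exact Submodule.smul_mem _ _ (hb i j x h)

theorem sim2 : S_sim2 := by
  intro n Q hQ hdet hn hsq
  obtain ⟨v, d, hd, ho, hprod⟩ := gram Q hQ
  set q : Fin n → ℚ := fun i => v i ⬝ᵥ Q *ᵥ v i with hq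
  have hqf : ∀ w : Fin n → ℚ, qf Q w = w ⬝ᵥ Q *ᵥ w := by
    intro w
    unfold qf
    rw [LinearMap.BilinMap.toQuadraticMap_apply, Matrix.toBilin'_apply']
  have hsymm : ∀ x y : Fin n → ℚ, x ⬝ᵥ Q *ᵥ y = y ⬝ᵥ Q *ᵥ x := by
    intro x y
    rw [Matrix.dotProduct_mulVec, ← Matrix.mulVec_transpose, hQ, dotProduct_comm]
  set u : Fin n → CliffordAlgebra (qf Q) := fun i => ι (qf Q) (v i) with hu
  have h1 : ∀ i j, i ≠ j → u i * u j = -(u j * u i) := by
    intro i j hij
    have : u i * u j + u j * u i = 0 := by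
      rw [hu]
      simp only
      rw [ι_mul_ι_add_swap]
      have : QuadraticMap.polar (qf Q) (v i) (v j) = 0 := by
        unfold QuadraticMap.polar
        rw [hqf, hqf, hqf, Matrix.mulVec_add, add_dotProduct, dotProduct_add, dotProduct_add,
          ho i j hij, ho j i hij.symm]
        ring
      rw [this, map_zero]
    exact eq_neg_of_add_eq_zero_left this
  have h2 : ∀ i, u i * u i = algebraMap ℚ _ (q i) := by
    intro i
    rw [hu]
    simp only
    rw [ι_sq_scalar, hqf]
  have h3 : ∀ i, q i ≠ 0 := by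
    intro i hi
    have : ∏ i, q i = 0 := Finset.prod_eq_zero (Finset.mem_univ i) hi
    rw [hprod] at this
    exact mul_ne_zero (mul_ne_zero hd hd) hdet this
  obtain ⟨k, hk⟩ := hn
  have hfr : ∀ i, (List.finRange n).count i = 1 := fun i =>
    List.count_eq_one_of_mem (List.nodup_finRange n) (List.mem_finRange i)
  set η := mm u (List.finRange n) with hη
  set δ : ℚ := (-1) ^ k * (d * d * Q.det) with hδ
  have hηη : η * η = algebraMap ℚ _ δ := by
    rw [hη, sqr u q h1 h2 _ (List.nodup_finRange n), List.length_finRange, ← Fin.prod_univ_def,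
      hprod]
    have hsn : sn n = (-1) ^ k := by rw [show n = 2 * k by omega, sn_even]
    rw [hsn]
  have hδs : ¬ IsSquare δ := by
    rintro ⟨t, ht⟩
    apply hsq
    refine ⟨t / d, ?_⟩
    rw [show n / 2 = k by omega]
    field_simp
    rw [hδ] at ht
    linear_combination ht
  have hηe : η ∈ CliffordAlgebra.even (qf Q) := mm_even Q (fun i => v i) _ (by
    rw [List.length_finRange]; exact ⟨k, hk⟩)
  have hpos : 0 < n := by
    rcases Nat.eq_zero_or_pos n with h | h
    · exfalso
      subst h
      apply hsq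
      simp
    · exact h
  have : Nontrivial (CliffordAlgebra (qf Q)) := inferInstance
  refine ⟨⟨?_⟩⟩
  intro I
  by_cases hI : ∀ x ∈ I, x = 0
  · left
    ext x
    rw [TwoSidedIdeal.mem_bot]
    exact ⟨hI x, fun h => by rw [h]; exact I.zero_mem⟩
  · right
    push Not at hI
    obtain ⟨z, hz, hz0⟩ := hI
    set N : Submodule ℚ (CliffordAlgebra (qf Q)) :=
      { carrier := {x | ∃ y : CliffordAlgebra.even (qf Q), y ∈ I ∧ (y : CliffordAlgebra (qf Q)) = x}
        zero_mem' := ⟨0, I.zero_mem, rfl⟩
        add_mem' := by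
          rintro _ _ ⟨y, hy, rfl⟩ ⟨y', hy', rfl⟩
          exact ⟨y + y', I.add_mem hy hy', rfl⟩
        smul_mem' := by
          rintro c _ ⟨y, hy, rfl⟩
          refine ⟨c • y, ?_, rfl⟩
          rw [← one_mul y, ← smul_mul_assoc]
          exact I.mul_mem_left _ _ hy } with hN
    have hr : ∀ x ∈ N, ∀ y ∈ CliffordAlgebra.even (qf Q), x * y ∈ N := by
      rintro _ ⟨w, hw, rfl⟩ y hy
      exact ⟨w * ⟨y, hy⟩, I.mul_mem_right _ _ hw, rfl⟩
    have hl : ∀ x ∈ N, ∀ y ∈ CliffordAlgebra.even (qf Q), y * x ∈ N := by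
      rintro _ ⟨w, hw, rfl⟩ y hy
      exact ⟨⟨y, hy⟩ * w, I.mul_mem_left _ _ hw, rfl⟩
    obtain ⟨l, a, b, hle, hmem, hne⟩ := two u q h1 h2 h3 N ⟨0, hpos⟩ (fun j z hz =>
      hr _ (hl _ hz _ (ι_mul_ι_mem_evenOdd_zero (qf Q) _ _)) _
        (ι_mul_ι_mem_evenOdd_zero (qf Q) _ _)) {l | Even l.length} (z : CliffordAlgebra (qf Q))
      ⟨z, hz, rfl⟩ (by simpa using hz0) (span_even Q v _ z.2) (List.finRange n) hfr
    rw [← hη] at hmem hne
    obtain ⟨c, hc, hcm⟩ := scal u q h1 h2 h3 _ (l ++ l.reverse) le_rfl (fun i => by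
      rw [List.count_append, List.count_reverse]; exact ⟨_, rfl⟩)
    rw [mm_append] at hcm
    have h5 := hr _ hmem _ (mm_even Q (fun i => v i) l.reverse (by
      rw [List.length_reverse]; exact hle))
    have h6 := hr _ h5 (algebraMap ℚ _ a - b • η) (by
      refine sub_mem ?_ ?_
      · exact algebraMap_mem _ a
      · exact (CliffordAlgebra.even (qf Q)).smul_mem hηe b)
    have h7 : (a • mm u l + b • (η * mm u l)) * mm (fun i => ι (qf Q) (v i)) l.reverse *
        (algebraMap ℚ _ a - b • η) = algebraMap ℚ _ (c * (a * a - b * b * δ)) := by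
      have e1 : (a • mm u l + b • (η * mm u l)) * mm (fun i => ι (qf Q) (v i)) l.reverse =
          algebraMap ℚ _ c * (algebraMap ℚ _ a + b • η) := by
        change (a • mm u l + b • (η * mm u l)) * mm u l.reverse = _
        rw [add_mul, smul_mul_assoc, smul_mul_assoc, mul_assoc, hcm, mul_add, ← Algebra.commutes c η,
          Algebra.smul_def a, ← map_mul, ← map_mul, mul_comm a c, mul_smul_comm]
      rw [e1, mul_assoc, add_mul, mul_sub, mul_sub, smul_mul_smul_comm, hηη, ← map_mul,
        smul_mul_assoc, mul_smul_comm, ← Algebra.commutes a η, Algebra.smul_def (b * b), ← map_mul]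
      rw [show algebraMap ℚ (CliffordAlgebra (qf Q)) (a * a) - b • (algebraMap ℚ _ a * η) +
        (b • (algebraMap ℚ _ a * η) - algebraMap ℚ _ (b * b * δ)) =
        algebraMap ℚ _ (a * a) - algebraMap ℚ _ (b * b * δ) by abel, ← map_sub, ← map_mul]
    rw [h7] at h6
    have h8 : c * (a * a - b * b * δ) ≠ 0 := by
      refine mul_ne_zero hc ?_
      intro h
      by_cases hb : b = 0
      · rw [hb] at h hne
        have : a = 0 := by
          have : a * a = 0 := by linear_combination h
          exact mul_self_eq_zero.mp this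
        rw [this] at hne
        simp at hne
      · apply hδs
        refine ⟨a / b, ?_⟩
        field_simp
        linear_combination -h
    obtain ⟨y, hy, hye⟩ := h6
    apply TwoSidedIdeal.eq_top
    have : (1 : CliffordAlgebra.even (qf Q)) =
        algebraMap ℚ _ ((c * (a * a - b * b * δ))⁻¹) * y := by
      apply Subtype.ext
      change (1 : CliffordAlgebra (qf Q)) = algebraMap ℚ _ ((c * (a * a - b * b * δ))⁻¹) * (y : CliffordAlgebra (qf Q))
      rw [hye, ← map_mul, inv_mul_cancel₀ h8, map_one]
    rw [this]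
    exact I.mul_mem_left _ _ hy

end Pool.Agent.W567.KS
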